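import Pool.Agent.Helper55.FR.GoalsB

/-! FR-IFX: the number of edges leaving a set. -/

namespace Pool.Agent.Helper46.FR

open Finset Pool.Agent.Helper55.FR

theorem ifx : IfxStmt := by
  intro V _ _ G _ n m hC hG S
  classical
  have h1 : ((S ×ˢ Sᶜ).filter fun p => G.Adj p.1 p.2).card =
      ∑ x ∈ S, (Sᶜ.filter fun y => G.Adj x y).card := by
    rw [Finset.card_filter, Finset.sum_product]
    refine Finset.sum_congr rfl fun x _ => ?_
    rw [Finset.card_filter]
  have h2 : ∀ x, (Sᶜ.filter fun y => G.Adj x y).card =
      (if n x ∉ S then 1 else 0) + (if n.symm x ∉ S then 1 else 0) +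
        (if m x ∉ S then 1 else 0) := by
    intro x
    have e1 : n x ≠ n.symm x := by
      intro h
      have := hC.nn x
      apply this
      rw [h]
      simp
    have e2 : n x ≠ m x := hC.nm x
    have e3 : n.symm x ≠ m x := by
      intro h
      have h' := hC.nm (n.symm x)
      rw [Equiv.apply_symm_apply, h, hC.mm] at h'
      exact h' rfl
    have hset : (Sᶜ.filter fun y => G.Adj x y) =
        ({n x, n.symm x, m x} : Finset V).filter fun y => y ∉ S := by
      ext y
      simp only [mem_filter, mem_compl, mem_insert, mem_singleton, hG, adj]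
      constructor
      · rintro ⟨ha, hb⟩
        refine ⟨?_, ha⟩
        rcases hb with hb | hb | hb
        · exact Or.inl hb
        · right; left
          rw [hb]; simp
        · exact Or.inr (Or.inr hb)
      · rintro ⟨ha, hb⟩
        refine ⟨hb, ?_⟩
        rcases ha with ha | ha | ha
        · exact Or.inl ha
        · right; left
          rw [ha]; simp
        · exact Or.inr (Or.inr ha)
    rw [hset, Finset.card_filter, Finset.sum_insert (by simp [e1, e2]),
      Finset.sum_insert (by simp [e3]), Finset.sum_singleton]
    ring
  have h3 : (S.filter fun x => n.symm x ∉ S).card = (S.filter fun x => n x ∉ S).card := by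
    have a1 := Finset.card_filter_add_card_filter_not (s := S) (fun x => n x ∈ S)
    have a2 := Finset.card_filter_add_card_filter_not (s := S) (fun x => n.symm x ∈ S)
    have a3 : (S.filter fun x => n x ∈ S).card = (S.filter fun x => n.symm x ∈ S).card := by
      refine Finset.card_bij (fun x _ => n x) ?_ ?_ ?_
      · intro x hx
        rw [mem_filter] at hx ⊢
        exact ⟨hx.2, by simpa using hx.1⟩
      · intro x _ y _ h
        exact n.injective h
      · intro y hy
        rw [mem_filter] at hy
        exact ⟨n.symm y, by rw [mem_filter]; exact ⟨hy.2, by simpa using hy.1⟩, by simp⟩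
    omega
  rw [h1]
  simp only [h2, Finset.sum_add_distrib]
  rw [← Finset.card_filter, ← Finset.card_filter, ← Finset.card_filter, h3]
  unfold dF dM
  ring

end Pool.Agent.Helper46.FR
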